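import Mathlib

/-!
Part A: a complex built from a point by adding dominated vertices is the nerve of
open convex sets with convex union.
-/

namespace Pool.Agent.Helper54.CUR

open Finset

variable {W : Type*} [DecidableEq W]

/-- down-closed family containing the empty set -/
def Cpx (L : Finset (Finset W)) : Prop := ∅ ∈ L ∧ ∀ s ∈ L, ∀ t, t ⊆ s → t ∈ L

/-- the vertices of a family -/
def vs (L : Finset (Finset W)) : Finset W := L.biUnion id

lemma mem_vs {L : Finset (Finset W)} {v : W} : v ∈ vs L ↔ ∃ s ∈ L, v ∈ s := by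
  simp [vs]

lemma subset_vs {L : Finset (Finset W)} {s : Finset W} (hs : s ∈ L) : s ⊆ vs L :=
  fun v hv => mem_vs.2 ⟨s, hs, hv⟩

lemma mem_vs_iff {L : Finset (Finset W)} (hL : Cpx L) {v : W} : v ∈ vs L ↔ {v} ∈ L := by
  constructor
  · intro h
    obtain ⟨s, hs, hv⟩ := mem_vs.1 h
    exact hL.2 s hs _ (by simpa using hv)
  · intro h
    exact mem_vs.2 ⟨_, h, by simp⟩

/-- complexes built from a point by adding dominated vertices -/
inductive Build : Finset (Finset W) → Prop
  | point (v : W) : Build {∅, {v}}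
  | add (L N : Finset (Finset W)) (w a : W) (hL : Build L) (hN : N ⊆ L) (h0 : ∅ ∈ N)
      (hd : ∀ s ∈ N, ∀ t, t ⊆ s → t ∈ N) (ha : ∀ G ∈ N, insert a G ∈ N) (hw : w ∉ vs L) :
      Build (L ∪ N.image (insert w))

lemma cpx_add {L N : Finset (Finset W)} {w : W} (hL : Cpx L)
    (hd : ∀ s ∈ N, ∀ t, t ⊆ s → t ∈ N) (hN : N ⊆ L) : Cpx (L ∪ N.image (insert w)) := by
  refine ⟨mem_union_left _ hL.1, ?_⟩
  intro s hs t ht
  rcases mem_union.1 hs with hs | hs
  · exact mem_union_left _ (hL.2 s hs t ht)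
  · obtain ⟨G, hG, rfl⟩ := mem_image.1 hs
    by_cases hw : w ∈ t
    · refine mem_union_right _ (mem_image.2 ⟨t.erase w, hd G hG _ ?_, insert_erase hw⟩)
      intro x hx
      obtain ⟨h1, h2⟩ := mem_erase.1 hx
      rcases mem_insert.1 (ht h2) with h | h
      · exact absurd h h1
      · exact h
    · refine mem_union_left _ (hL.2 G (hN hG) t ?_)
      intro x hx
      rcases mem_insert.1 (ht hx) with h | h
      · subst h; exact absurd hx hw
      · exact h

lemma Build.cpx {L : Finset (Finset W)} (h : Build L) : Cpx L := by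
  induction h with
  | point v =>
    refine ⟨by simp, ?_⟩
    intro s hs t ht
    simp only [mem_insert, mem_singleton] at hs ⊢
    rcases hs with rfl | rfl
    · left; exact subset_empty.1 ht
    · exact subset_singleton_iff.1 ht
  | add L N w a hL hN h0 hd ha hw ih => exact cpx_add ih hd hN

lemma Build.vs_nonempty {L : Finset (Finset W)} (h : Build L) : (vs L).Nonempty := by
  induction h with
  | point v => exact ⟨v, mem_vs.2 ⟨{v}, by simp, by simp⟩⟩
  | add L N w a hL hN h0 hd ha hw ih =>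
    obtain ⟨v, hv⟩ := ih
    obtain ⟨s, hs, hv⟩ := mem_vs.1 hv
    exact ⟨v, mem_vs.2 ⟨s, mem_union_left _ hs, hv⟩⟩

lemma vs_add {L N : Finset (Finset W)} {w : W} (h0 : ∅ ∈ N) (hN : N ⊆ L) :
    vs (L ∪ N.image (insert w)) = insert w (vs L) := by
  ext v
  rw [mem_insert]
  constructor
  · intro h
    obtain ⟨s, hs, hv⟩ := mem_vs.1 h
    rcases mem_union.1 hs with hs | hs
    · exact Or.inr (mem_vs.2 ⟨s, hs, hv⟩)
    · obtain ⟨G, hG, rfl⟩ := mem_image.1 hs
      rcases mem_insert.1 hv with h | h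
      · exact Or.inl h
      · exact Or.inr (mem_vs.2 ⟨G, hN hG, h⟩)
  · rintro (rfl | h)
    · exact mem_vs.2 ⟨_, mem_union_right _ (mem_image.2 ⟨∅, h0, rfl⟩), by simp⟩
    · obtain ⟨s, hs, hv⟩ := mem_vs.1 h
      exact mem_vs.2 ⟨s, mem_union_left _ hs, hv⟩

/-- `C` represents `L` by near-argmax sets. -/
structure Rep (L : Finset (Finset W)) (C : Set (W → ℝ)) (B ε : ℝ) : Prop where
  conv : Convex ℝ C
  epos : 0 < ε
  bd : ∀ x ∈ C, ∀ v ∈ vs L, |x v| ≤ B
  near : ∀ x ∈ C, ∀ A : Finset W, A ⊆ vs L → (∀ v ∈ A, ∀ u ∈ vs L, x u ≤ x v + ε) → A ∈ L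
  exact : ∀ F ∈ L, F.Nonempty → ∃ x ∈ C, ∃ μ : ℝ, (∀ v ∈ F, x v = μ) ∧
    (∀ u ∈ vs L, u ∉ F → x u < μ)

lemma exists_pos_le {ι : Type*} (S : Finset ι) (g : ι → ℝ) (hg : ∀ i ∈ S, 0 < g i) :
    ∃ γ : ℝ, 0 < γ ∧ ∀ i ∈ S, γ ≤ g i := by
  rcases S.eq_empty_or_nonempty with rfl | hS
  · exact ⟨1, one_pos, by simp⟩
  · obtain ⟨i, hi, hmin⟩ := S.exists_min_image g hS
    exact ⟨g i, hg i hi, hmin⟩

lemma rep_point (v : W) : Rep ({∅, {v}} : Finset (Finset W)) {0} 0 1 := by
  have hvs : ∀ u, u ∈ vs ({∅, {v}} : Finset (Finset W)) ↔ u = v := by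
    intro u; simp [mem_vs]
  refine ⟨convex_singleton _, one_pos, ?_, ?_, ?_⟩
  · rintro x rfl u _; simp
  · rintro x rfl A hA _
    have : A ⊆ {v} := fun u hu => by simpa using (hvs u).1 (hA hu)
    simpa using subset_singleton_iff.1 this
  · intro F hF hne
    refine ⟨0, rfl, 0, by simp, ?_⟩
    intro u hu huF
    simp only [mem_insert, mem_singleton] at hF
    rcases hF with rfl | rfl
    · simp at hne
    · exact absurd ((hvs u).1 hu) (by simpa using huF)

theorem Rep.step {L N : Finset (Finset W)} {w a : W} {C : Set (W → ℝ)} {B ε : ℝ}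
    (h : Rep L C B ε) (hN : N ⊆ L) (h0 : ∅ ∈ N)
    (hd : ∀ s ∈ N, ∀ t, t ⊆ s → t ∈ N) (ha : ∀ G ∈ N, insert a G ∈ N) (hw : w ∉ vs L)
    (hL : Cpx L) :
    ∃ C' B' ε', Rep (L ∪ N.image (insert w)) C' B' ε' := by
  classical
  -- exact points
  have hex : ∀ F : Finset W, ∃ x : W → ℝ, ∃ μ : ℝ, F ∈ L → F.Nonempty →
      x ∈ C ∧ (∀ v ∈ F, x v = μ) ∧ (∀ u ∈ vs L, u ∉ F → x u < μ) := by
    intro F
    by_cases hF : F ∈ L ∧ F.Nonempty
    · obtain ⟨x, hx, μ, h1, h2⟩ := h.exact F hF.1 hF.2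
      exact ⟨x, μ, fun _ _ => ⟨hx, h1, h2⟩⟩
    · exact ⟨0, 0, fun h1 h2 => absurd ⟨h1, h2⟩ hF⟩
  choose X M hXM using hex
  have haN : {a} ∈ N := by simpa using ha ∅ h0
  have haL : a ∈ vs L := mem_vs.2 ⟨{a}, hN haN, by simp⟩
  have haw : a ≠ w := by rintro rfl; exact hw haL
  set Na : Finset (Finset W) := N.filter (fun F => a ∈ F) with hNa
  have haNa : {a} ∈ Na := by simp [hNa, haN]
  have hXC : ∀ F ∈ Na, X F ∈ C := fun F hF =>
    (hXM F (hN (mem_filter.1 hF).1) ⟨a, (mem_filter.1 hF).2⟩).1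
  have hXv : ∀ F ∈ Na, ∀ v ∈ F, X F v = M F := fun F hF =>
    (hXM F (hN (mem_filter.1 hF).1) ⟨a, (mem_filter.1 hF).2⟩).2.1
  have hXu : ∀ F ∈ Na, ∀ u ∈ vs L, u ∉ F → X F u < M F := fun F hF =>
    (hXM F (hN (mem_filter.1 hF).1) ⟨a, (mem_filter.1 hF).2⟩).2.2
  have hXa : ∀ F ∈ Na, X F a = M F := fun F hF => hXv F hF a (mem_filter.1 hF).2
  have hXle : ∀ F ∈ Na, ∀ u ∈ vs L, X F u ≤ M F := by
    intro F hF u hu
    by_cases huF : u ∈ F
    · exact (hXv F hF u huF).le
    · exact (hXu F hF u hu huF).le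
  -- B is nonnegative
  have hB0 : 0 ≤ B := le_trans (abs_nonneg _) (h.bd _ (hXC _ haNa) a haL)
  -- gap
  obtain ⟨γ, hγ, hgap⟩ : ∃ γ : ℝ, 0 < γ ∧ ∀ F ∈ Na, ∀ u ∈ vs L, u ∉ F → X F u + γ ≤ M F := by
    obtain ⟨γ, hγ, hg⟩ := exists_pos_le ((Na ×ˢ vs L).filter (fun p => p.2 ∉ p.1))
      (fun p => M p.1 - X p.1 p.2) (by
        intro p hp
        obtain ⟨h1, h2⟩ := mem_filter.1 hp
        obtain ⟨h3, h4⟩ := mem_product.1 h1
        have := hXu p.1 h3 p.2 h4 h2
        linarith)
    refine ⟨γ, hγ, fun F hF u hu huF => ?_⟩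
    have := hg (F, u) (mem_filter.2 ⟨mem_product.2 ⟨hF, hu⟩, huF⟩)
    simp only at this
    linarith
  have hcard : 0 < (Na.card : ℝ) := by
    exact_mod_cast card_pos.2 ⟨_, haNa⟩
  set γ' : ℝ := γ / Na.card with hγ'
  have hγ'0 : 0 < γ' := div_pos hγ hcard
  set η : ℝ := γ' / 4 with hη
  have hη0 : 0 < η := by positivity
  set m : ℝ := B + 1 + 4 * (B + 1) / η with hm
  have hm0 : 4 * (B + 1) / η > 0 := by positivity
  have hmB : B + 1 < m := by rw [hm]; linarith
  set ε' : ℝ := min (min ε 1) η with hε'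
  have hε'0 : 0 < ε' := lt_min (lt_min h.epos one_pos) hη0
  have hε'ε : ε' ≤ ε := (min_le_left _ _).trans (min_le_left _ _)
  have hε'1 : ε' ≤ 1 := (min_le_left _ _).trans (min_le_right _ _)
  have hε'η : ε' ≤ η := min_le_right _ _
  -- the two pieces
  set S : Set (W → ℝ) := {y | ∃ c ∈ C, (∀ u, u ≠ w → y u = c u) ∧ y w = -m} with hS
  set k : Finset W → (W → ℝ) := fun F => Function.update (X F) w (M F + 1) with hk
  set T : Set (W → ℝ) := {y | ∃ l : Finset W → ℝ, (∀ F, 0 ≤ l F) ∧ ∑ F ∈ Na, l F = 1 ∧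
    y = ∑ F ∈ Na, l F • k F} with hT
  have hSconv : Convex ℝ S := by
    rintro y ⟨c, hc, h1, h2⟩ y' ⟨c', hc', h1', h2'⟩ p q hp hq hpq
    refine ⟨p • c + q • c', h.conv hc hc' hp hq hpq, ?_, ?_⟩
    · intro u hu
      simp [h1 u hu, h1' u hu]
    · simp only [Pi.add_apply, Pi.smul_apply, smul_eq_mul, h2, h2']
      rw [← add_mul, hpq, one_mul]
  have hTconv : Convex ℝ T := by
    rintro y ⟨l, hl, hl1, rfl⟩ y' ⟨l', hl', hl1', rfl⟩ p q hp hq hpq
    refine ⟨fun F => p * l F + q * l' F, ?_, ?_, ?_⟩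
    · intro F
      have := mul_nonneg hp (hl F)
      have := mul_nonneg hq (hl' F)
      linarith
    · rw [sum_add_distrib, ← mul_sum, ← mul_sum, hl1, hl1']
      linarith
    · rw [smul_sum, smul_sum, ← sum_add_distrib]
      refine sum_congr rfl fun F _ => ?_
      rw [smul_smul, smul_smul, ← add_smul]
  have hkT : ∀ F ∈ Na, k F ∈ T := by
    intro F hF
    refine ⟨fun G => if G = F then 1 else 0, ?_, ?_, ?_⟩
    · intro G; dsimp only; split_ifs <;> norm_num
    · rw [sum_ite_eq' Na F]; simp [hF]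
    · simp [ite_smul, hF]
  have hTne : T.Nonempty := ⟨_, hkT _ haNa⟩
  have hupS : ∀ c ∈ C, Function.update c w (-m) ∈ S := by
    intro c hc
    refine ⟨c, hc, ?_, by simp⟩
    intro u hu; simp [hu]
  have hSne : S.Nonempty := ⟨_, hupS _ (hXC _ haNa)⟩
  -- description of points
  have hpt : ∀ z ∈ convexJoin ℝ S T, ∃ c ∈ C, ∃ k' ∈ C, ∃ s : ℝ, 0 ≤ s ∧ s ≤ 1 ∧
      (∀ u, u ≠ w → z u = (1 - s) * c u + s * k' u) ∧
      z w = (1 - s) * (-m) + s * (k' a + 1) ∧
      (∀ u ∈ vs L, k' u ≤ k' a) ∧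
      ∃ F₀ ∈ Na, ∀ u ∈ vs L, u ∉ F₀ → k' u + γ' ≤ k' a := by
    intro z hz
    obtain ⟨y, ⟨c, hc, h1, h2⟩, y', ⟨l, hl, hl1, rfl⟩, hz⟩ := mem_convexJoin.1 hz
    rw [segment_eq_image] at hz
    obtain ⟨s, ⟨hs0, hs1⟩, rfl⟩ := hz
    refine ⟨c, hc, ∑ F ∈ Na, l F • X F, ?_, s, hs0, hs1, ?_, ?_, ?_, ?_⟩
    · exact h.conv.sum_mem (fun F _ => hl F) hl1 hXC
    · intro u hu
      simp only [Pi.add_apply, Pi.smul_apply, smul_eq_mul, h1 u hu, Finset.sum_apply]
      congr 2
      refine sum_congr rfl fun F _ => ?_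
      simp [hk, hu]
    · simp only [Pi.add_apply, Pi.smul_apply, smul_eq_mul, h2, Finset.sum_apply]
      congr 2
      have : ∑ F ∈ Na, l F * k F w = ∑ F ∈ Na, (l F * X F a + l F) := by
        refine sum_congr rfl fun F hF => ?_
        simp [hk, hXa F hF, mul_add]
      rw [this, sum_add_distrib, hl1]
    · intro u hu
      simp only [Pi.smul_apply, smul_eq_mul, Finset.sum_apply]
      refine sum_le_sum fun F hF => ?_
      rw [hXa F hF]
      exact mul_le_mul_of_nonneg_left (hXle F hF u hu) (hl F)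
    · obtain ⟨F₀, hF₀, hlF₀⟩ : ∃ F₀ ∈ Na, 1 / (Na.card : ℝ) ≤ l F₀ := by
        by_contra hcon
        push Not at hcon
        have : ∑ F ∈ Na, l F < ∑ F ∈ Na, 1 / (Na.card : ℝ) :=
          sum_lt_sum_of_nonempty ⟨_, haNa⟩ hcon
        rw [hl1, sum_const, nsmul_eq_mul, mul_one_div_cancel hcard.ne'] at this
        exact lt_irrefl _ this
      refine ⟨F₀, hF₀, fun u hu huF => ?_⟩
      simp only [Pi.smul_apply, smul_eq_mul, Finset.sum_apply]
      rw [← add_sum_erase Na _ hF₀, ← add_sum_erase Na (fun F => l F * X F a) hF₀]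
      have e1 : ∑ F ∈ Na.erase F₀, l F * X F u ≤ ∑ F ∈ Na.erase F₀, l F * X F a := by
        refine sum_le_sum fun F hF => ?_
        have hF := mem_of_mem_erase hF
        rw [hXa F hF]
        exact mul_le_mul_of_nonneg_left (hXle F hF u hu) (hl F)
      have e2 : l F₀ * X F₀ u + γ' ≤ l F₀ * X F₀ a := by
        rw [hXa F₀ hF₀]
        have g1 := hgap F₀ hF₀ u hu huF
        have g2 : γ' ≤ l F₀ * γ := by
          rw [hγ', div_eq_mul_one_div, mul_comm]
          exact mul_le_mul_of_nonneg_right hlF₀ hγ.le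
        have g3 := mul_le_mul_of_nonneg_left g1 (hl F₀)
        linarith
      linarith
  refine ⟨convexJoin ℝ S T, max m (B + 1), ε', hSconv.convexJoin hTconv, hε'0, ?_, ?_, ?_⟩
  · -- bound
    intro z hz v hv
    rw [vs_add h0 hN] at hv
    obtain ⟨c, hc, k', hk', s, hs0, hs1, hz1, hz2, -, -⟩ := hpt z hz
    have hs1' : 0 ≤ 1 - s := by linarith
    by_cases hvw : v = w
    · subst hvw
      have hb := abs_le.1 (h.bd _ hk' a haL)
      rw [hz2, abs_le]
      have hmax1 := le_max_left m (B + 1)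
      have hmax2 := le_max_right m (B + 1)
      constructor
      · nlinarith
      · nlinarith
    · have hv : v ∈ vs L := (mem_insert.1 hv).resolve_left hvw
      have hb := abs_le.1 (h.bd _ hk' v hv)
      have hb' := abs_le.1 (h.bd _ hc v hv)
      rw [hz1 v hvw, abs_le]
      have hmax2 := le_max_right m (B + 1)
      constructor
      · nlinarith
      · nlinarith
  · -- near points
    intro z hz A hA hnear
    rw [vs_add h0 hN] at hA hnear
    obtain ⟨c, hc, k', hk', s, hs0, hs1, hz1, hz2, hka, F₀, hF₀, hF₀u⟩ := hpt z hz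
    have hs1' : 0 ≤ 1 - s := by linarith
    by_cases hwA : w ∈ A
    · -- close to `k'`
      refine mem_union_right _ (mem_image.2 ⟨A.erase w, ?_, insert_erase hwA⟩)
      refine hd F₀ (mem_filter.1 hF₀).1 _ ?_
      intro u hu
      obtain ⟨huw, huA⟩ := mem_erase.1 hu
      have huL : u ∈ vs L := (mem_insert.1 (hA huA)).resolve_left huw
      by_contra huF
      have q1 := hF₀u u huL huF
      have q2 := hnear w hwA a (mem_insert_of_mem haL)
      have q3 := hnear u huA a (mem_insert_of_mem haL)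
      rw [hz1 a haw, hz2] at q2
      rw [hz1 a haw, hz1 u huw] at q3
      have b1 := abs_le.1 (h.bd _ hc a haL)
      have b2 := abs_le.1 (h.bd _ hc u huL)
      have b3 := abs_le.1 (h.bd _ hk' a haL)
      have b4 := abs_le.1 (h.bd _ hk' u huL)
      have r1 : (1 - s) * (m - B) ≤ 2 := by nlinarith
      have r2 : (1 - s) * (2 * (B + 1)) ≤ η := by
        have : (1 - s) * (4 * (B + 1) / η) ≤ 2 := by
          refine le_trans ?_ r1
          refine mul_le_mul_of_nonneg_left ?_ hs1'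
          rw [hm]; linarith
        have h2 : (1 - s) * (4 * (B + 1) / η) = (1 - s) * (4 * (B + 1)) / η := by ring
        rw [h2, div_le_iff₀ hη0] at this
        linarith
      -- differences
      have r3 : (1 - s) * (c u - c a) + s * (k' u - k' a) ≥ -ε' := by nlinarith
      have r4 : (1 - s) * (c u - c a) ≤ (1 - s) * (2 * (B + 1)) :=
        mul_le_mul_of_nonneg_left (by linarith) hs1'
      have r5 : s * (k' u - k' a) ≤ -(s * γ') := by nlinarith
      have r6 : (1 - s) * 2 ≤ (1 - s) * (2 * (B + 1)) :=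
        mul_le_mul_of_nonneg_left (by linarith) hs1'
      have r7 : (1 - s) * (k' a - k' u) ≤ (1 - s) * (2 * (B + 1)) :=
        mul_le_mul_of_nonneg_left (by linarith) hs1'
      -- s * (k' u - k' a) = (k' u - k' a) + (1-s) (k' a - k' u) ≤ -γ' + η
      have r8 : s * (k' u - k' a) = (k' u - k' a) + (1 - s) * (k' a - k' u) := by ring
      have : γ' = 4 * η := by rw [hη]; ring
      linarith
    · -- reduces to a point of `C`
      refine mem_union_left _ (h.near ((1 - s) • c + s • k')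
        (h.conv hc hk' hs1' hs0 (by ring)) A ?_ ?_)
      · intro u hu
        refine (mem_insert.1 (hA hu)).resolve_left ?_
        rintro rfl; exact hwA hu
      · intro v hv u hu
        have hvw : v ≠ w := by rintro rfl; exact hwA hv
        have huw : u ≠ w := by rintro rfl; exact hw hu
        have := hnear v hv u (mem_insert_of_mem hu)
        rw [hz1 v hvw, hz1 u huw] at this
        simp only [Pi.add_apply, Pi.smul_apply, smul_eq_mul]
        linarith
  · -- exact points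
    intro F hF' hne
    rw [vs_add h0 hN]
    rcases mem_union.1 hF' with hF | hF
    · obtain ⟨hx, hv, hu⟩ := hXM F hF hne
      have hwF : w ∉ F := fun hwF => hw (subset_vs hF hwF)
      refine ⟨Function.update (X F) w (-m), subset_convexJoin_left hTne (hupS _ hx), M F, ?_, ?_⟩
      · intro v hvF
        have : v ≠ w := by rintro rfl; exact hwF hvF
        simp [this, hv v hvF]
      · intro u hu' huF
        rcases mem_insert.1 hu' with rfl | hu'
        · obtain ⟨v, hvF⟩ := hne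
          have := abs_le.1 (h.bd _ hx v (subset_vs hF hvF))
          rw [hv v hvF] at this
          simp only [Function.update_self]
          linarith
        · have : u ≠ w := fun e => hw (e ▸ hu')
          simp [this, hu u hu' huF]
    · obtain ⟨G, hG, rfl⟩ := mem_image.1 hF
      rcases G.eq_empty_or_nonempty with rfl | hGne
      · refine ⟨k {a}, subset_convexJoin_right hSne (hkT _ haNa), M {a} + 1, ?_, ?_⟩
        · intro v hv
          have : v = w := by simpa using hv
          subst this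
          simp [hk]
        · intro u hu huF
          have huw : u ≠ w := by simpa using huF
          have hu := (mem_insert.1 hu).resolve_left huw
          have := hXle {a} haNa u hu
          simp only [hk, Function.update_of_ne huw]
          linarith
      · obtain ⟨hx, hv, hu⟩ := hXM G (hN hG) hGne
        have hHN : insert a G ∈ Na := mem_filter.2 ⟨ha G hG, mem_insert_self _ _⟩
        set H := insert a G with hH
        have hwG : w ∉ G := fun hwG => hw (subset_vs (hN hG) hwG)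
        obtain ⟨v₀, hv₀⟩ := hGne
        have hMG := abs_le.1 (h.bd _ hx v₀ (subset_vs (hN hG) hv₀))
        rw [hv v₀ hv₀] at hMG
        have hden : 0 < 1 + m + M G := by linarith
        have hden1 : 1 < 1 + m + M G := by linarith
        set t : ℝ := 1 / (1 + m + M G) with ht
        have ht0 : 0 < t := by positivity
        have ht1 : t < 1 := by rw [ht, div_lt_one hden]; exact hden1
        have hteq : t * (1 + m + M G) = 1 := by rw [ht]; field_simp
        refine ⟨t • Function.update (X G) w (-m) + (1 - t) • k H,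
          segment_subset_convexJoin (hupS _ hx) (hkT _ hHN)
            ⟨t, 1 - t, ht0.le, by linarith, by ring, rfl⟩, t * M G + (1 - t) * M H, ?_, ?_⟩
        · intro v hvF
          rcases mem_insert.1 hvF with rfl | hvG
          · simp only [Pi.add_apply, Pi.smul_apply, smul_eq_mul, Function.update_self, hk]
            linarith
          · have hvw : v ≠ w := by rintro rfl; exact hwG hvG
            simp only [Pi.add_apply, Pi.smul_apply, smul_eq_mul, Function.update_of_ne hvw, hk]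
            rw [hv v hvG, hXv H hHN v (mem_insert_of_mem hvG)]
        · intro u hu' huF
          have huw : u ≠ w := by rintro rfl; exact huF (mem_insert_self _ _)
          have huG : u ∉ G := fun h => huF (mem_insert_of_mem h)
          have huL := (mem_insert.1 hu').resolve_left huw
          simp only [Pi.add_apply, Pi.smul_apply, smul_eq_mul, Function.update_of_ne huw, hk]
          have p1 := hu u huL huG
          have p2 := hXle H hHN u huL
          have p3 : t * X G u < t * M G := mul_lt_mul_of_pos_left p1 ht0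
          have p4 : (1 - t) * X H u ≤ (1 - t) * M H :=
            mul_le_mul_of_nonneg_left p2 (by linarith)
          linarith

theorem Build.rep {L : Finset (Finset W)} (h : Build L) : ∃ C B ε, Rep L C B ε := by
  induction h with
  | point v => exact ⟨_, _, _, rep_point v⟩
  | add L N w a hL hN h0 hd ha hw ih =>
    obtain ⟨C, B, ε, h⟩ := ih
    exact h.step hN h0 hd ha hw hL.cpx

/-- the open convex sets -/
def nbhd {n : ℕ} (C : Set (W → ℝ)) (f : Fin n → W) (ε : ℝ) (i : Fin n) : Set (Fin n → ℝ) :=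
  {x | (∃ c ∈ C, ∀ j, |x j - c (f j)| < ε / 8) ∧ ∀ j, x j < x i + ε / 2}

lemma nbhd_open {n : ℕ} (C : Set (W → ℝ)) (f : Fin n → W) (ε : ℝ) (i : Fin n) :
    IsOpen (nbhd C f ε i) := by
  have e : nbhd C f ε i = (⋃ c ∈ C, ⋂ j, {x : Fin n → ℝ | |x j - c (f j)| < ε / 8}) ∩
      ⋂ j, {x : Fin n → ℝ | x j < x i + ε / 2} := by
    ext x; simp [nbhd]
  rw [e]
  refine IsOpen.inter ?_ ?_
  · refine isOpen_biUnion fun c _ => isOpen_iInter_of_finite fun j => ?_
    exact isOpen_lt (by fun_prop) continuous_const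
  · refine isOpen_iInter_of_finite fun j => ?_
    exact isOpen_lt (by fun_prop) (by fun_prop)

lemma thick_convex {n : ℕ} {C : Set (W → ℝ)} (hC : Convex ℝ C) (f : Fin n → W) (ε : ℝ)
    {x y : Fin n → ℝ} (hx : ∃ c ∈ C, ∀ j, |x j - c (f j)| < ε / 8)
    (hy : ∃ c ∈ C, ∀ j, |y j - c (f j)| < ε / 8) {p q : ℝ} (hp : 0 ≤ p) (hq : 0 ≤ q)
    (hpq : p + q = 1) : ∃ c ∈ C, ∀ j, |(p • x + q • y) j - c (f j)| < ε / 8 := by
  obtain ⟨c, hc, h1⟩ := hx
  obtain ⟨c', hc', h2⟩ := hy
  refine ⟨p • c + q • c', hC hc hc' hp hq hpq, fun j => ?_⟩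
  have a1 := abs_lt.1 (h1 j)
  have a2 := abs_lt.1 (h2 j)
  simp only [Pi.add_apply, Pi.smul_apply, smul_eq_mul]
  rw [abs_lt]
  rcases hp.eq_or_lt with rfl | hp
  · have : q = 1 := by linarith
    subst this
    constructor <;> linarith
  · have b1 := mul_lt_mul_of_pos_left a1.1 hp
    have b2 := mul_lt_mul_of_pos_left a1.2 hp
    have b3 := mul_le_mul_of_nonneg_left a2.1.le hq
    have b4 := mul_le_mul_of_nonneg_left a2.2.le hq
    have b5 : p * (ε / 8) + q * (ε / 8) = ε / 8 := by rw [← add_mul, hpq, one_mul]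
    constructor <;> linarith

lemma nbhd_convex {n : ℕ} {C : Set (W → ℝ)} (hC : Convex ℝ C) (f : Fin n → W) (ε : ℝ)
    (i : Fin n) : Convex ℝ (nbhd C f ε i) := by
  rintro x ⟨hx, hx'⟩ y ⟨hy, hy'⟩ p q hp hq hpq
  refine ⟨thick_convex hC f ε hx hy hp hq hpq, fun j => ?_⟩
  simp only [Pi.add_apply, Pi.smul_apply, smul_eq_mul]
  have a1 := hx' j
  have a2 := hy' j
  rcases hp.eq_or_lt with rfl | hp
  · have : q = 1 := by linarith
    subst this
    linarith
  · have b1 := mul_lt_mul_of_pos_left a1 hp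
    have b2 := mul_le_mul_of_nonneg_left a2.le hq
    have b5 : p * (ε / 2) + q * (ε / 2) = ε / 2 := by rw [← add_mul, hpq, one_mul]
    linarith

lemma nbhd_union_convex {n : ℕ} {C : Set (W → ℝ)} (hC : Convex ℝ C) (f : Fin n → W) {ε : ℝ}
    (hε : 0 < ε) : Convex ℝ (⋃ i, nbhd C f ε i) := by
  have key : ∀ x : Fin n → ℝ, (∃ c ∈ C, ∀ j, |x j - c (f j)| < ε / 8) → ∀ i₀ : Fin n,
      x ∈ ⋃ i, nbhd C f ε i := by
    intro x hx i₀
    obtain ⟨i, -, hi⟩ := (univ : Finset (Fin n)).exists_max_image x ⟨i₀, mem_univ _⟩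
    refine Set.mem_iUnion.2 ⟨i, hx, fun j => ?_⟩
    have := hi j (mem_univ _)
    linarith
  intro x hx y hy p q hp hq hpq
  obtain ⟨i, hx⟩ := Set.mem_iUnion.1 hx
  obtain ⟨j, hy⟩ := Set.mem_iUnion.1 hy
  exact key _ (thick_convex hC f ε hx.1 hy.1 hp hq hpq) i

/-- the nerve condition -/
lemma nbhd_nerve {n : ℕ} {L : Finset (Finset W)} (hL : Cpx L) {C : Set (W → ℝ)} {B ε : ℝ}
    (h : Rep L C B ε) (f : Fin n → W) (hf : ∀ v ∈ vs L, ∃ i, f i = v) (hf' : ∀ i, f i ∈ vs L)
    (s : Finset (Fin n)) :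
    (s = ∅ ∨ (⋂ i ∈ s, nbhd C f ε i).Nonempty) ↔ s.image f ∈ L := by
  constructor
  · rintro (rfl | ⟨x, hx⟩)
    · simpa using hL.1
    · rcases s.eq_empty_or_nonempty with rfl | ⟨i₀, hi₀⟩
      · simpa using hL.1
      · rw [Set.mem_iInter₂] at hx
        obtain ⟨⟨c, hc, hcx⟩, -⟩ := hx i₀ hi₀
        refine h.near c hc _ ?_ ?_
        · intro v hv
          obtain ⟨i, -, rfl⟩ := mem_image.1 hv
          exact hf' i
        · intro v hv u hu
          obtain ⟨i, hi, rfl⟩ := mem_image.1 hv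
          obtain ⟨j, rfl⟩ := hf u hu
          have a1 := abs_lt.1 (hcx i)
          have a2 := abs_lt.1 (hcx j)
          have a3 := (hx i hi).2 j
          linarith
  · intro hs
    rcases s.eq_empty_or_nonempty with rfl | hne
    · exact Or.inl rfl
    · right
      obtain ⟨x, hx, μ, h1, h2⟩ := h.exact _ hs (hne.image f)
      have hε := h.epos
      refine ⟨fun j => x (f j), Set.mem_iInter₂.2 fun i hi => ⟨⟨x, hx, fun j => ?_⟩, fun j => ?_⟩⟩
      · simp only [sub_self, abs_zero]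
        linarith
      · have e1 : x (f i) = μ := h1 _ (mem_image_of_mem f hi)
        have e2 : x (f j) ≤ μ := by
          by_cases hj : f j ∈ s.image f
          · exact (h1 _ hj).le
          · exact (h2 _ (hf' j) hj).le
        linarith

/-- Part A: the nerve theorem for built complexes. -/
theorem Build.nerve {L : Finset (Finset W)} (h : Build L) :
    ∃ (n : ℕ) (f : Fin n → W) (U : Fin n → Set (Fin n → ℝ)), Function.Injective f ∧
      (∀ v ∈ vs L, ∃ i, f i = v) ∧ (∀ i, IsOpen (U i) ∧ Convex ℝ (U i)) ∧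
      Convex ℝ (⋃ i, U i) ∧
      ∀ s : Finset (Fin n), (s = ∅ ∨ (⋂ i ∈ s, U i).Nonempty) ↔ s.image f ∈ L := by
  obtain ⟨C, B, ε, hr⟩ := h.rep
  let e := (vs L).equivFin
  refine ⟨(vs L).card, fun i => (e.symm i : W), nbhd C (fun i => (e.symm i : W)) ε, ?_, ?_,
    fun i => ⟨nbhd_open _ _ _ _, nbhd_convex hr.conv _ _ _⟩, nbhd_union_convex hr.conv _ hr.epos,
    nbhd_nerve h.cpx hr _ ?_ ?_⟩
  · intro i j hij
    exact e.symm.injective (Subtype.ext hij)
  · intro v hv
    exact ⟨e ⟨v, hv⟩, by simp⟩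
  · intro v hv
    exact ⟨e ⟨v, hv⟩, by simp⟩
  · intro i
    exact (e.symm i).2

end Pool.Agent.Helper54.CUR
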