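import Mathlib
import Pool.Agent.Helper54.CUR.PartA

/-!
Part B: every collapsible complex has a subdivision which is built from a point by adding
dominated vertices.
-/

namespace Pool.Agent.Helper54.CUR

open Finset

variable {V : Type*} [Fintype V] [DecidableEq V]

/-- total mass -/
noncomputable def mass : ((V → ℝ) →₀ ℝ) →ₗ[ℝ] ℝ := Finsupp.linearCombination ℝ (fun _ => (1 : ℝ))

/-- the point with the given weights -/
noncomputable def pos : ((V → ℝ) →₀ ℝ) →ₗ[ℝ] (V → ℝ) := Finsupp.linearCombination ℝ id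

lemma mass_eq (α : (V → ℝ) →₀ ℝ) : mass α = ∑ p ∈ α.support, α p := by
  simp [mass, Finsupp.linearCombination_apply, Finsupp.sum]

lemma pos_eq (α : (V → ℝ) →₀ ℝ) : pos α = ∑ p ∈ α.support, α p • p := by
  simp [pos, Finsupp.linearCombination_apply, Finsupp.sum]

lemma pos_apply (α : (V → ℝ) →₀ ℝ) (v : V) : pos α v = ∑ p ∈ α.support, α p * p v := by
  simp [pos_eq]

/-- support of a vector -/
noncomputable def supp (x : V → ℝ) : Finset V := univ.filter (fun v => x v ≠ 0)

lemma mem_supp {x : V → ℝ} {v : V} : v ∈ supp x ↔ x v ≠ 0 := by simp [supp]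

/-- weights supported on a face -/
structure Pt (L : Finset (Finset (V → ℝ))) (α : (V → ℝ) →₀ ℝ) : Prop where
  nn : ∀ p, 0 ≤ α p
  one : mass α = 1
  sup : α.support ∈ L

lemma Pt.mono {L L' : Finset (Finset (V → ℝ))} (h : L ⊆ L') {α : (V → ℝ) →₀ ℝ} (ha : Pt L α) :
    Pt L' α := ⟨ha.nn, ha.one, h ha.sup⟩

/-- points of the realization of an abstract complex -/
structure Rl (K : Finset (Finset V)) (x : V → ℝ) : Prop where
  nn : ∀ v, 0 ≤ x v
  one : ∑ v, x v = 1
  sup : supp x ∈ K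

/-- built subdivisions -/
structure Sub (K : Finset (Finset V)) (L : Finset (Finset (V → ℝ))) : Prop where
  build : Build L
  vert : ∀ s ∈ L, ∀ p ∈ s, (∀ v, 0 ≤ p v) ∧ ∑ v, p v = 1
  car : ∀ s ∈ L, ∃ F ∈ K, ∀ p ∈ s, supp p ⊆ F
  inj : ∀ α β, Pt L α → Pt L β → pos α = pos β → α = β
  surj : ∀ x, Rl K x → ∃ α, Pt L α ∧ pos α = x

lemma Pt.pos_nonneg {L : Finset (Finset (V → ℝ))}
    (vert : ∀ s ∈ L, ∀ p ∈ s, (∀ v, 0 ≤ p v) ∧ ∑ v, p v = 1) {α : (V → ℝ) →₀ ℝ} (h : Pt L α)
    (v : V) : 0 ≤ pos α v := by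
  rw [pos_apply]
  exact sum_nonneg fun p hp => mul_nonneg (h.nn p) ((vert _ h.sup p hp).1 v)

lemma Pt.pos_sum {L : Finset (Finset (V → ℝ))}
    (vert : ∀ s ∈ L, ∀ p ∈ s, (∀ v, 0 ≤ p v) ∧ ∑ v, p v = 1) {α : (V → ℝ) →₀ ℝ} (h : Pt L α) :
    ∑ v, pos α v = 1 := by
  simp only [pos_apply]
  rw [sum_comm]
  rw [← h.one, mass_eq]
  refine sum_congr rfl fun p hp => ?_
  rw [← mul_sum, (vert _ h.sup p hp).2, mul_one]

lemma Pt.supp_sub {L : Finset (Finset (V → ℝ))}
    (vert : ∀ s ∈ L, ∀ p ∈ s, (∀ v, 0 ≤ p v) ∧ ∑ v, p v = 1) {α : (V → ℝ) →₀ ℝ} (h : Pt L α)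
    {p : V → ℝ} (hp : p ∈ α.support) : supp p ⊆ supp (pos α) := by
  intro v hv
  rw [mem_supp] at hv ⊢
  rw [pos_apply]
  refine (sum_pos' (fun q hq => mul_nonneg (h.nn q) ((vert _ h.sup q hq).1 v)) ⟨p, hp, ?_⟩).ne'
  exact mul_pos (lt_of_le_of_ne (h.nn p) (Ne.symm (Finsupp.mem_support_iff.1 hp)))
    (lt_of_le_of_ne ((vert _ h.sup p hp).1 v) (Ne.symm hv))

lemma pos_supp_sub {α : (V → ℝ) →₀ ℝ} {F : Finset V} (h : ∀ p ∈ α.support, supp p ⊆ F) :
    supp (pos α) ⊆ F := by
  intro v hv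
  rw [mem_supp, pos_apply] at hv
  by_contra hvF
  refine hv (sum_eq_zero fun p hp => ?_)
  have : v ∉ supp p := fun h' => hvF (h p hp h')
  rw [mem_supp, not_not] at this
  rw [this, mul_zero]

/-- projection along `D` to height zero -/
def prj (v0 : V) (D x : V → ℝ) : V → ℝ := x + x v0 • D

lemma eq_of_prj {v0 : V} {D x y : V → ℝ} (h : prj v0 D x = prj v0 D y) (h0 : x v0 = y v0) :
    x = y := by
  unfold prj at h
  rw [h0] at h
  exact add_right_cancel h

lemma prj_add {v0 : V} {D : V → ℝ} (hD : D v0 = -1) (x : V → ℝ) (c : ℝ) :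
    prj v0 D (x + c • D) = prj v0 D x := by
  unfold prj
  ext v
  simp only [Pi.add_apply, Pi.smul_apply, smul_eq_mul, hD]
  ring

lemma prj_height {v0 : V} {D : V → ℝ} (hD : D v0 = -1) (x : V → ℝ) : prj v0 D x v0 = 0 := by
  unfold prj
  simp [hD]

lemma prj_sub {v0 : V} {D x y : V → ℝ} (h : prj v0 D x = prj v0 D y) (v : V) :
    x v - y v = (y v0 - x v0) * D v := by
  have := congrFun h v
  simp only [prj, Pi.add_apply, Pi.smul_apply, smul_eq_mul] at this
  linarith

/-- invariants -/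
structure Inv (K0 K : Finset (Finset V)) (σ : Finset V) (v0 : V) (D : V → ℝ)
    (L A : Finset (Finset (V → ℝ))) : Prop where
  build : Build L
  sub : A ⊆ L
  dn : ∀ s ∈ A, ∀ t, t ⊆ s → t ∈ A
  ne : ∅ ∈ A
  vert : ∀ s ∈ L, ∀ p ∈ s, (∀ v, 0 ≤ p v) ∧ ∑ v, p v = 1
  car : ∀ s ∈ L, ∃ F ∈ K, ∀ p ∈ s, supp p ⊆ F
  carA : ∀ s ∈ A, ∀ p ∈ s, supp p ⊆ σ
  inj : ∀ α β, Pt L α → Pt L β → pos α = pos β → α = β
  injA : ∀ α β, Pt A α → Pt A β → prj v0 D (pos α) = prj v0 D (pos β) → α = β
  above : ∀ α β, Pt L α → Pt A β → prj v0 D (pos α) = prj v0 D (pos β) → pos β v0 ≤ pos α v0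
  cov : ∀ z, Rl K z → supp z ⊆ σ → ∀ β, Pt A β → prj v0 D z = prj v0 D (pos β) →
    pos β v0 ≤ z v0 → ∃ α, Pt L α ∧ pos α = z
  proj : ∀ z, Rl K z → supp z ⊆ σ → ∃ β, Pt A β ∧ prj v0 D z = prj v0 D (pos β)
  old : ∀ z, Rl K0 z → ∃ α, Pt L α ∧ pos α = z

/-- move mass `c` from `w` to `a` -/
noncomputable def mv (a w : V → ℝ) (c : ℝ) (α : (V → ℝ) →₀ ℝ) : (V → ℝ) →₀ ℝ :=
  α + Finsupp.single a c - Finsupp.single w c

lemma mv_w {a w : V → ℝ} (h : a ≠ w) (c : ℝ) (α : (V → ℝ) →₀ ℝ) : mv a w c α w = α w - c := by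
  simp [mv, Finsupp.single_apply, h]

lemma mv_a {a w : V → ℝ} (h : a ≠ w) (c : ℝ) (α : (V → ℝ) →₀ ℝ) : mv a w c α a = α a + c := by
  simp [mv, Finsupp.single_apply, h.symm]

lemma mv_ne {a w p : V → ℝ} (ha : p ≠ a) (hw : p ≠ w) (c : ℝ) (α : (V → ℝ) →₀ ℝ) :
    mv a w c α p = α p := by
  simp [mv, Finsupp.single_apply, ha.symm, hw.symm]

lemma mv_mass (a w : V → ℝ) (c : ℝ) (α : (V → ℝ) →₀ ℝ) : mass (mv a w c α) = mass α := by
  simp [mv, mass, Finsupp.linearCombination_single]

lemma mv_pos (a w : V → ℝ) (c : ℝ) (α : (V → ℝ) →₀ ℝ) :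
    pos (mv a w c α) = pos α + c • a - c • w := by
  simp [mv, pos, Finsupp.linearCombination_single]

lemma mv_zero (a w : V → ℝ) (α : (V → ℝ) →₀ ℝ) : mv a w 0 α = α := by
  simp [mv]

/-- moving mass up: points containing `w` -/
lemma mv_up {A L : Finset (Finset (V → ℝ))} {a w : V → ℝ} (haw : a ≠ w) (hA : A ⊆ L)
    (hw : w ∉ vs L) {α : (V → ℝ) →₀ ℝ} (hnn : ∀ p, 0 ≤ α p) (hone : mass α = 1)
    {G : Finset (V → ℝ)} (hG : G ∈ A) (hG' : insert a G ∈ A) (hs : α.support = insert w G) :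
    0 < α w ∧ Pt A (mv a w (α w) α) := by
  have hwG : w ∉ G := fun h => hw (mem_vs.2 ⟨G, hA hG, h⟩)
  have hw0 : 0 < α w := by
    refine lt_of_le_of_ne (hnn w) (Ne.symm ?_)
    rw [← Finsupp.mem_support_iff, hs]
    exact mem_insert_self _ _
  refine ⟨hw0, ?_, ?_, ?_⟩
  · intro p
    by_cases hpw : p = w
    · subst hpw; rw [mv_w haw]; simp
    · by_cases hpa : p = a
      · subst hpa; rw [mv_a haw]; exact add_nonneg (hnn _) (hnn _)
      · rw [mv_ne hpa hpw]; exact hnn p
  · rw [mv_mass, hone]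
  · have : (mv a w (α w) α).support = insert a G := by
      ext p
      rw [Finsupp.mem_support_iff]
      by_cases hpw : p = w
      · subst hpw
        rw [mv_w haw]
        simp only [sub_self, ne_eq, not_true_eq_false, mem_insert, false_iff, not_or]
        exact ⟨haw.symm, hwG⟩
      · by_cases hpa : p = a
        · subst hpa
          rw [mv_a haw]
          simp only [mem_insert_self, iff_true]
          have := hnn p
          exact (by linarith : 0 < α p + α w).ne'
        · rw [mv_ne hpa hpw, ← Finsupp.mem_support_iff, hs, mem_insert, mem_insert]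
          simp [hpw, hpa]
    rw [this]
    exact hG'

theorem Inv.step {K0 K : Finset (Finset V)} {σ : Finset V} {v0 : V} {D : V → ℝ}
    {L A : Finset (Finset (V → ℝ))} (h : Inv K0 K σ v0 D L A) (hσ : σ ∈ K)
    (hD0 : D v0 = -1) (hDnn : ∀ v, v ≠ v0 → 0 ≤ D v) (hDσ : ∀ v, v ∉ σ → D v = 0)
    (hDs : ∑ v, D v = 0) {a : V → ℝ} (ha : a ∈ vs A) (hpos : 0 < a v0) :
    ∃ L' A', Inv K0 K σ v0 D L' A' ∧
      ((vs A').filter (fun p => 0 < p v0)).card < ((vs A).filter (fun p => 0 < p v0)).card := by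
  classical
  have hAc : Cpx A := ⟨h.ne, h.dn⟩
  have haA : {a} ∈ A := (mem_vs_iff hAc).1 ha
  obtain ⟨hann, hasum⟩ := h.vert _ (h.sub haA) a (mem_singleton_self a)
  have hasupp : supp a ⊆ σ := h.carA _ haA a (mem_singleton_self a)
  set w : V → ℝ := prj v0 D a with hwdef
  have hw0 : w v0 = 0 := prj_height hD0 a
  have haw : a ≠ w := by
    intro e
    rw [e, hw0] at hpos
    exact lt_irrefl _ hpos
  have hwnn : ∀ v, 0 ≤ w v := by
    intro v
    by_cases hv : v = v0
    · subst hv; rw [hw0]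
    · simp only [hwdef, prj, Pi.add_apply, Pi.smul_apply, smul_eq_mul]
      exact add_nonneg (hann v) (mul_nonneg hpos.le (hDnn v hv))
  have hwsum : ∑ v, w v = 1 := by
    simp only [hwdef, prj, Pi.add_apply, Pi.smul_apply, smul_eq_mul]
    rw [sum_add_distrib, ← mul_sum, hDs, hasum]
    ring
  have hwsupp : supp w ⊆ σ := by
    intro v hv
    by_contra hvσ
    rw [mem_supp] at hv
    apply hv
    have h1 : a v = 0 := by
      by_contra h1
      exact hvσ (hasupp (mem_supp.2 h1))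
    simp [hwdef, prj, h1, hDσ v hvσ]
  have hpw : prj v0 D w = prj v0 D a := by
    rw [hwdef]
    exact prj_add hD0 a (a v0)
  -- single points
  have hsingle : ∀ (M : Finset (Finset (V → ℝ))) (p : V → ℝ), {p} ∈ M →
      Pt M (Finsupp.single p 1) := by
    intro M p hp
    refine ⟨fun q => ?_, ?_, ?_⟩
    · rw [Finsupp.single_apply]; split_ifs <;> norm_num
    · simp [mass, Finsupp.linearCombination_single]
    · rw [Finsupp.support_single_ne_zero p one_ne_zero]; exact hp
  have hpsingle : ∀ p : V → ℝ, pos (Finsupp.single p 1) = p := by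
    intro p; simp [pos, Finsupp.linearCombination_single]
  -- `w` is new
  have hwL : w ∉ vs L := by
    intro hwL
    have hwL := (mem_vs_iff h.build.cpx).1 hwL
    have := h.above _ _ (hsingle L w hwL) (hsingle A a haA) (by rw [hpsingle, hpsingle, hpw])
    rw [hpsingle, hpsingle, hw0] at this
    linarith
  have hwA : ∀ s ∈ A, w ∉ s := fun s hs hws => hwL (mem_vs.2 ⟨s, h.sub hs, hws⟩)
  -- the link data
  set N : Finset (Finset (V → ℝ)) := A.filter (fun G => insert a G ∈ A) with hN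
  have hNA : ∀ G, G ∈ N ↔ G ∈ A ∧ insert a G ∈ A := by intro G; rw [hN, mem_filter]
  have hN0 : ∅ ∈ N := (hNA _).2 ⟨h.ne, by simpa using haA⟩
  have hNd : ∀ s ∈ N, ∀ t, t ⊆ s → t ∈ N := by
    intro s hs t ht
    rw [hNA] at hs ⊢
    exact ⟨h.dn s hs.1 t ht, h.dn _ hs.2 _ (insert_subset_insert a ht)⟩
  have hNa : ∀ G ∈ N, insert a G ∈ N := by
    intro G hG
    rw [hNA] at hG ⊢
    refine ⟨hG.2, ?_⟩
    rw [insert_idem]
    exact hG.2
  have hNL : N ⊆ L := fun G hG => h.sub ((hNA G).1 hG).1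
  set L' := L ∪ N.image (insert w) with hL'
  set A' := A.filter (fun G => a ∉ G) ∪ (N.filter (fun G => a ∉ G)).image (insert w) with hA'
  have hLL' : L ⊆ L' := subset_union_left
  have hA'L' : A' ⊆ L' := by
    intro s hs
    rcases mem_union.1 hs with hs | hs
    · exact mem_union_left _ (h.sub (mem_filter.1 hs).1)
    · obtain ⟨G, hG, rfl⟩ := mem_image.1 hs
      exact mem_union_right _ (mem_image_of_mem _ (mem_filter.1 hG).1)
  -- mass moving facts
  have hmvpos : ∀ c α, pos (mv a w c α) = pos α + (-(c * a v0)) • D := by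
    intro c α
    rw [mv_pos, hwdef]
    ext v
    simp only [prj, Pi.add_apply, Pi.sub_apply, Pi.smul_apply, smul_eq_mul]
    ring
  have hmvprj : ∀ c α, prj v0 D (pos (mv a w c α)) = prj v0 D (pos α) := by
    intro c α
    rw [hmvpos, prj_add hD0]
  have hmvht : ∀ c α, pos (mv a w c α) v0 = pos α v0 + c * a v0 := by
    intro c α
    rw [hmvpos]
    simp only [Pi.add_apply, Pi.smul_apply, smul_eq_mul, hD0]
    ring
  -- structure of points of `L'`
  have hup : ∀ α, Pt L' α → (Pt L α ∧ α w = 0) ∨ (0 < α w ∧ Pt A (mv a w (α w) α)) := by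
    intro α hα
    rcases mem_union.1 hα.sup with hs | hs
    · left
      refine ⟨⟨hα.nn, hα.one, hs⟩, ?_⟩
      by_contra h1
      exact hwL (mem_vs.2 ⟨_, hs, Finsupp.mem_support_iff.2 h1⟩)
    · right
      obtain ⟨G, hG, hs⟩ := mem_image.1 hs
      rw [hNA] at hG
      exact mv_up haw h.sub hwL hα.nn hα.one hG.1 hG.2 hs.symm
  have hupA : ∀ β, Pt A' β → β a = 0 ∧ Pt A (mv a w (β w) β) := by
    intro β hβ
    rcases mem_union.1 hβ.sup with hs | hs
    · obtain ⟨hs, has⟩ := mem_filter.1 hs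
      have hb0 : β w = 0 := by
        by_contra h1
        exact hwA _ hs (Finsupp.mem_support_iff.2 h1)
      rw [hb0, mv_zero]
      exact ⟨Finsupp.notMem_support_iff.1 has, hβ.nn, hβ.one, hs⟩
    · obtain ⟨G, hG, hs⟩ := mem_image.1 hs
      obtain ⟨hG, haG⟩ := mem_filter.1 hG
      rw [hNA] at hG
      refine ⟨?_, (mv_up haw h.sub hwL hβ.nn hβ.one hG.1 hG.2 hs.symm).2⟩
      rw [← Finsupp.notMem_support_iff, ← hs, mem_insert, not_or]
      exact ⟨haw, haG⟩
  -- down move
  have hdown : ∀ γ, Pt A γ → Pt A' (mv a w (-γ a) γ) := by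
    intro γ hγ
    have hγw : γ w = 0 := by
      by_contra h1
      exact hwA _ hγ.sup (Finsupp.mem_support_iff.2 h1)
    by_cases hγa : γ a = 0
    · rw [hγa, neg_zero, mv_zero]
      refine ⟨hγ.nn, hγ.one, mem_union_left _ (mem_filter.2 ⟨hγ.sup, ?_⟩)⟩
      rwa [Finsupp.notMem_support_iff]
    · refine ⟨?_, ?_, ?_⟩
      · intro p
        by_cases hpw : p = w
        · rw [hpw, mv_w haw, hγw]
          have := hγ.nn a
          linarith
        · by_cases hpa : p = a
          · rw [hpa, mv_a haw]; simp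
          · rw [mv_ne hpa hpw]; exact hγ.nn p
      · rw [mv_mass, hγ.one]
      · have hs : (mv a w (-γ a) γ).support = insert w (γ.support.erase a) := by
          ext p
          rw [Finsupp.mem_support_iff]
          by_cases hpw : p = w
          · rw [hpw, mv_w haw, hγw]
            simpa using hγa
          · by_cases hpa : p = a
            · rw [hpa, mv_a haw]
              simp [haw]
            · rw [mv_ne hpa hpw, mem_insert, mem_erase, Finsupp.mem_support_iff]
              simp [hpw, hpa]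
        rw [hs]
        refine mem_union_right _ (mem_image_of_mem _ (mem_filter.2 ⟨?_, notMem_erase _ _⟩))
        rw [hNA]
        refine ⟨h.dn _ hγ.sup _ (erase_subset _ _), ?_⟩
        rw [insert_erase (Finsupp.mem_support_iff.2 hγa)]
        exact hγ.sup
  -- injectivity of the up move
  have hmvinj : ∀ c α β, mv a w c α = mv a w c β → α = β := by
    intro c α β e
    unfold mv at e
    exact add_right_cancel (sub_left_injective e)
  refine ⟨L', A', ⟨?_, hA'L', ?_, ?_, ?_, ?_, ?_, ?_, ?_, ?_, ?_, ?_, ?_⟩, ?_⟩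
  · exact Build.add L N w a h.build hNL hN0 hNd hNa hwL
  · -- down-closed
    intro s hs t ht
    rcases mem_union.1 hs with hs | hs
    · obtain ⟨hs, has⟩ := mem_filter.1 hs
      exact mem_union_left _ (mem_filter.2 ⟨h.dn s hs t ht, fun hat => has (ht hat)⟩)
    · obtain ⟨G, hG, rfl⟩ := mem_image.1 hs
      obtain ⟨hG, haG⟩ := mem_filter.1 hG
      by_cases hwt : w ∈ t
      · have hsub : t.erase w ⊆ G := by
          intro x hx
          obtain ⟨h1, h2⟩ := mem_erase.1 hx
          exact (mem_insert.1 (ht h2)).resolve_left h1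
        refine mem_union_right _ (mem_image.2 ⟨t.erase w, mem_filter.2 ⟨hNd G hG _ hsub, ?_⟩,
          insert_erase hwt⟩)
        exact fun hat => haG (hsub hat)
      · have hsub : t ⊆ G := by
          intro x hx
          refine (mem_insert.1 (ht hx)).resolve_left ?_
          intro e
          exact hwt (e ▸ hx)
        refine mem_union_left _ (mem_filter.2 ⟨h.dn G ((hNA G).1 hG).1 t hsub, ?_⟩)
        exact fun hat => haG (hsub hat)
  · exact mem_union_left _ (mem_filter.2 ⟨h.ne, notMem_empty _⟩)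
  · -- vertices
    intro s hs p hp
    rcases mem_union.1 hs with hs | hs
    · exact h.vert s hs p hp
    · obtain ⟨G, hG, rfl⟩ := mem_image.1 hs
      rcases mem_insert.1 hp with e | hp
      · rw [e]; exact ⟨hwnn, hwsum⟩
      · exact h.vert G (hNL hG) p hp
  · -- carriers
    intro s hs
    rcases mem_union.1 hs with hs | hs
    · exact h.car s hs
    · obtain ⟨G, hG, rfl⟩ := mem_image.1 hs
      refine ⟨σ, hσ, fun p hp => ?_⟩
      rcases mem_insert.1 hp with e | hp
      · rw [e]; exact hwsupp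
      · exact h.carA G ((hNA G).1 hG).1 p hp
  · -- carriers in `A'`
    intro s hs p hp
    rcases mem_union.1 hs with hs | hs
    · exact h.carA s (mem_filter.1 hs).1 p hp
    · obtain ⟨G, hG, rfl⟩ := mem_image.1 hs
      rcases mem_insert.1 hp with e | hp
      · rw [e]; exact hwsupp
      · exact h.carA G ((hNA G).1 (mem_filter.1 hG).1).1 p hp
  · -- injectivity on `L'`
    intro α β hα hβ e
    rcases hup α hα with ⟨h1, h1'⟩ | ⟨h1, h1'⟩ <;> rcases hup β hβ with ⟨h2, h2'⟩ | ⟨h2, h2'⟩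
    · exact h.inj α β h1 h2 e
    · exfalso
      have := h.above _ _ h1 h2' (by rw [hmvprj, e])
      rw [hmvht, e] at this
      have := mul_pos h2 hpos
      linarith
    · exfalso
      have := h.above _ _ h2 h1' (by rw [hmvprj, e])
      rw [hmvht, e] at this
      have := mul_pos h1 hpos
      linarith
    · have e1 := h.injA _ _ h1' h2' (by rw [hmvprj, hmvprj, e])
      have e2 : pos (mv a w (α w) α) v0 = pos (mv a w (β w) β) v0 := by rw [e1]
      rw [hmvht, hmvht, e] at e2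
      have e3 : α w = β w := by
        have : (α w - β w) * a v0 = 0 := by linarith
        rcases mul_eq_zero.1 this with h3 | h3
        · linarith
        · exact absurd h3 hpos.ne'
      rw [e3] at e1
      exact hmvinj _ _ _ e1
  · -- injectivity on `A'`
    intro α β hα hβ e
    obtain ⟨h1, h1'⟩ := hupA α hα
    obtain ⟨h2, h2'⟩ := hupA β hβ
    have e1 := h.injA _ _ h1' h2' (by rw [hmvprj, hmvprj, e])
    have e2 : mv a w (α w) α a = mv a w (β w) β a := by rw [e1]
    rw [mv_a haw, mv_a haw, h1, h2, zero_add, zero_add] at e2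
    rw [e2] at e1
    exact hmvinj _ _ _ e1
  · -- above
    intro α β hα hβ e
    obtain ⟨h2, h2'⟩ := hupA β hβ
    have hβw := hβ.nn w
    rcases hup α hα with ⟨h1, h1'⟩ | ⟨h1, h1'⟩
    · have := h.above _ _ h1 h2' (by rw [hmvprj, e])
      rw [hmvht] at this
      have := mul_nonneg hβw hpos.le
      linarith
    · have e1 := h.injA _ _ h1' h2' (by rw [hmvprj, hmvprj, e])
      have e2 : mv a w (α w) α a = mv a w (β w) β a := by rw [e1]
      rw [mv_a haw, mv_a haw, h2, zero_add] at e2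
      have e3 : pos (mv a w (α w) α) v0 = pos (mv a w (β w) β) v0 := by rw [e1]
      rw [hmvht, hmvht] at e3
      have h4 : α w ≤ β w := by
        have := hα.nn a
        linarith
      have := mul_le_mul_of_nonneg_right h4 hpos.le
      linarith
  · -- covering
    intro z hz hzσ β hβ e hle
    obtain ⟨h2, h2'⟩ := hupA β hβ
    by_cases hcase : pos (mv a w (β w) β) v0 ≤ z v0
    · obtain ⟨α, h3, h4⟩ := h.cov z hz hzσ _ h2' (by rw [hmvprj, e]) hcase
      exact ⟨α, h3.mono hLL', h4⟩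
    · push Not at hcase
      rw [hmvht] at hcase
      -- amount moved
      set c : ℝ := (z v0 - pos β v0) / a v0 with hc
      have hc0 : 0 ≤ c := div_nonneg (by linarith) hpos.le
      have hc1 : c < β w := by
        rw [hc, div_lt_iff₀ hpos]
        linarith
      have hca : c * a v0 = z v0 - pos β v0 := by
        rw [hc, div_mul_cancel₀ _ hpos.ne']
      refine ⟨mv a w c β, ⟨?_, ?_, ?_⟩, ?_⟩
      · intro p
        by_cases hpw : p = w
        · rw [hpw, mv_w haw]; linarith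
        · by_cases hpa : p = a
          · rw [hpa, mv_a haw]; have := hβ.nn a; linarith
          · rw [mv_ne hpa hpw]; exact hβ.nn p
      · rw [mv_mass, hβ.one]
      · have hβw : w ∈ β.support := Finsupp.mem_support_iff.2 (by linarith : β w > 0).ne'
        have hG : ∃ G ∈ N, β.support = insert w G := by
          rcases mem_union.1 hβ.sup with hs | hs
          · exact absurd hβw (hwA _ (mem_filter.1 hs).1)
          · obtain ⟨G, hG, hs⟩ := mem_image.1 hs
            exact ⟨G, (mem_filter.1 hG).1, hs.symm⟩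
        obtain ⟨G, hG, hs⟩ := hG
        have hmw : w ∈ (mv a w c β).support := by
          rw [Finsupp.mem_support_iff, mv_w haw]
          exact (by linarith : β w - c > 0).ne'
        refine mem_union_right _ (mem_image.2 ⟨(mv a w c β).support.erase w, ?_,
          insert_erase hmw⟩)
        refine hNd _ (hNa G hG) _ ?_
        intro p hp
        obtain ⟨hpw, hp⟩ := mem_erase.1 hp
        by_cases hpa : p = a
        · rw [hpa]; exact mem_insert_self _ _
        · rw [Finsupp.mem_support_iff, mv_ne hpa hpw, ← Finsupp.mem_support_iff, hs] at hp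
          exact mem_insert_of_mem ((mem_insert.1 hp).resolve_left hpw)
      · refine eq_of_prj (v0 := v0) (D := D) ?_ ?_
        · rw [hmvprj, e]
        · rw [hmvht, hca]; ring
  · -- projection
    intro z hz hzσ
    obtain ⟨γ, hγ, e⟩ := h.proj z hz hzσ
    exact ⟨_, hdown γ hγ, by rw [hmvprj, e]⟩
  · -- old part
    intro z hz
    obtain ⟨α, h1, h2⟩ := h.old z hz
    exact ⟨α, h1.mono hLL', h2⟩
  · -- count
    have hsub : (vs A').filter (fun p => 0 < p v0) ⊆
        ((vs A).filter (fun p => 0 < p v0)).erase a := by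
      intro p hp
      obtain ⟨hp, hp0⟩ := mem_filter.1 hp
      obtain ⟨s, hs, hps⟩ := mem_vs.1 hp
      rcases mem_union.1 hs with hs | hs
      · obtain ⟨hs, has⟩ := mem_filter.1 hs
        refine mem_erase.2 ⟨?_, mem_filter.2 ⟨mem_vs.2 ⟨s, hs, hps⟩, hp0⟩⟩
        intro e; exact has (e ▸ hps)
      · obtain ⟨G, hG, rfl⟩ := mem_image.1 hs
        obtain ⟨hG, haG⟩ := mem_filter.1 hG
        rcases mem_insert.1 hps with e | hpG
        · rw [e, hw0] at hp0
          exact absurd hp0 (lt_irrefl _)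
        · refine mem_erase.2 ⟨?_, mem_filter.2 ⟨mem_vs.2 ⟨G, ((hNA G).1 hG).1, hpG⟩, hp0⟩⟩
          intro e; exact haG (e ▸ hpG)
    calc _ ≤ (((vs A).filter (fun p => 0 < p v0)).erase a).card := card_le_card hsub
      _ < _ := card_erase_lt_of_mem (mem_filter.2 ⟨ha, hpos⟩)

theorem Inv.final {K0 K : Finset (Finset V)} {σ : Finset V} {v0 : V} {D : V → ℝ}
    (hσ : σ ∈ K) (hD0 : D v0 = -1) (hDnn : ∀ v, v ≠ v0 → 0 ≤ D v) (hDσ : ∀ v, v ∉ σ → D v = 0)
    (hDs : ∑ v, D v = 0) (n : ℕ) : ∀ L A : Finset (Finset (V → ℝ)), Inv K0 K σ v0 D L A →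
      ((vs A).filter (fun p => 0 < p v0)).card = n →
      ∃ L' A', Inv K0 K σ v0 D L' A' ∧ ∀ p ∈ vs A', p v0 ≤ 0 := by
  induction n using Nat.strong_induction_on with
  | _ n ih =>
    intro L A h hn
    by_cases hall : ∀ p ∈ vs A, p v0 ≤ 0
    · exact ⟨L, A, h, hall⟩
    · push Not at hall
      obtain ⟨a, ha, hpos⟩ := hall
      obtain ⟨L', A', h', hlt⟩ := h.step hσ hD0 hDnn hDσ hDs ha hpos
      exact ih _ (hn ▸ hlt) L' A' h' rfl

/-- the direction for an elementary expansion -/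
noncomputable def dir (τ : Finset V) (v0 : V) : V → ℝ :=
  fun v => if v = v0 then -1 else if v ∈ τ then 1 / (τ.card : ℝ) else 0

theorem init {K0 K : Finset (Finset V)} {τ : Finset V} {v0 : V}
    {L : Finset (Finset (V → ℝ))} (h : Sub K0 L) (hK0 : ∀ s ∈ K0, ∀ t, t ⊆ s → t ∈ K0)
    (hK : ∀ s ∈ K, ∀ t, t ⊆ s → t ∈ K)
    (hτ : τ.Nonempty) (hv0 : v0 ∉ τ) (hτK : τ ∉ K0) (hσK : insert v0 τ ∈ K)
    (hsub : K0 ⊆ K) (hmem : ∀ s ∈ K, s ≠ τ → s ≠ insert v0 τ → s ∈ K0) :
    Inv K0 K (insert v0 τ) v0 (dir τ v0) L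
      (L.filter (fun s => ∀ p ∈ s, supp p ⊆ insert v0 τ)) := by
  classical
  set σ := insert v0 τ with hσ
  set D := dir τ v0 with hD
  have hD0 : D v0 = -1 := by simp [hD, dir]
  have hcard : 0 < (τ.card : ℝ) := by exact_mod_cast card_pos.2 hτ
  have hDτ : ∀ v ∈ τ, D v = 1 / (τ.card : ℝ) := by
    intro v hv
    have : v ≠ v0 := by rintro rfl; exact hv0 hv
    simp [hD, dir, this, hv]
  have hDo : ∀ v, v ∉ σ → D v = 0 := by
    intro v hv
    rw [hσ, mem_insert, not_or] at hv
    simp [hD, dir, hv.1, hv.2]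
  have hcpx := h.build.cpx
  set A := L.filter (fun s => ∀ p ∈ s, supp p ⊆ σ) with hA
  have hrl : ∀ α, Pt L α → Rl K0 (pos α) := by
    intro α hα
    obtain ⟨F, hF, hFs⟩ := h.car _ hα.sup
    exact ⟨hα.pos_nonneg h.vert, hα.pos_sum h.vert, hK0 F hF _ (pos_supp_sub hFs)⟩
  have hAL : A ⊆ L := filter_subset _ _
  -- points of `K0` miss a vertex of `τ`
  have hmiss : ∀ x, Rl K0 x → ∃ v ∈ τ, x v = 0 := by
    intro x hx
    by_contra hcon
    push Not at hcon
    exact hτK (hK0 _ hx.sup _ fun v hv => mem_supp.2 (hcon v hv))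
  refine ⟨h.build, hAL, ?_, ?_, h.vert, ?_, ?_, h.inj, ?_, ?_, ?_, ?_, h.surj⟩
  · intro s hs t ht
    obtain ⟨h1, h2⟩ := mem_filter.1 hs
    exact mem_filter.2 ⟨hcpx.2 s h1 t ht, fun p hp => h2 p (ht hp)⟩
  · exact mem_filter.2 ⟨hcpx.1, by simp⟩
  · intro s hs
    obtain ⟨F, hF, hFs⟩ := h.car s hs
    exact ⟨F, hsub hF, hFs⟩
  · intro s hs p hp
    exact (mem_filter.1 hs).2 p hp
  · -- injA
    intro α β hα hβ e
    have hα := hα.mono hAL
    have hβ := hβ.mono hAL
    refine h.inj α β hα hβ ?_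
    obtain ⟨v, hv, hv'⟩ := hmiss _ (hrl α hα)
    obtain ⟨u, hu, hu'⟩ := hmiss _ (hrl β hβ)
    have e1 := prj_sub e v
    have e2 := prj_sub e u
    rw [hDτ v hv, hv'] at e1
    rw [hDτ u hu, hu'] at e2
    have p1 := hβ.pos_nonneg h.vert v
    have p2 := hα.pos_nonneg h.vert u
    have hinv : 0 < 1 / (τ.card : ℝ) := by positivity
    have q1 : (pos β v0 - pos α v0) ≤ 0 := by
      by_contra hcon
      push Not at hcon
      have := mul_pos hcon hinv
      linarith
    have q2 : 0 ≤ (pos β v0 - pos α v0) := by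
      by_contra hcon
      push Not at hcon
      have := mul_neg_of_neg_of_pos hcon hinv
      linarith
    exact eq_of_prj e (by linarith)
  · -- above
    intro α β hα hβ e
    have hβ := hβ.mono hAL
    obtain ⟨v, hv, hv'⟩ := hmiss _ (hrl α hα)
    have e1 := prj_sub e v
    rw [hDτ v hv, hv'] at e1
    have p1 := hβ.pos_nonneg h.vert v
    have hinv : 0 < 1 / (τ.card : ℝ) := by positivity
    by_contra hcon
    push Not at hcon
    have := mul_pos (sub_pos.2 hcon) hinv
    linarith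
  · -- cov
    intro z hz hzσ β hβ e hle
    have hβ := hβ.mono hAL
    obtain ⟨v, hv, hv'⟩ := hmiss _ (hrl β hβ)
    have e1 := prj_sub e v
    rw [hDτ v hv, hv'] at e1
    have p1 := hz.nn v
    have hinv : 0 < 1 / (τ.card : ℝ) := by positivity
    have hge : z v0 ≤ pos β v0 := by
      by_contra hcon
      push Not at hcon
      have := mul_neg_of_neg_of_pos (sub_neg.2 hcon) hinv
      linarith
    refine ⟨β, hβ, ?_⟩
    exact (eq_of_prj e (by linarith)).symm
  · -- proj
    intro z hz hzσ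
    obtain ⟨v1, hv1, hmin⟩ := τ.exists_min_image z hτ
    set t : ℝ := τ.card * z v1 with ht
    have ht0 : 0 ≤ t := mul_nonneg hcard.le (hz.nn v1)
    set x : V → ℝ := z + (-t) • D with hx
    have hxτ : ∀ v ∈ τ, x v = z v - z v1 := by
      intro v hv
      simp only [hx, Pi.add_apply, Pi.smul_apply, smul_eq_mul, hDτ v hv, ht]
      field_simp
      ring
    have hxv0 : x v0 = z v0 + t := by
      simp [hx, hD0]
    have hxo : ∀ v, v ∉ σ → x v = 0 := by
      intro v hv
      have : z v = 0 := by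
        by_contra h1
        exact hv (hzσ (mem_supp.2 h1))
      simp [hx, hDo v hv, this]
    have hDsum : ∑ v, D v = 0 := by
      have : ∑ v, D v = ∑ v ∈ σ, D v := by
        symm
        refine sum_subset (subset_univ _) fun v _ hv => hDo v hv
      rw [this, hσ, sum_insert hv0, hD0, sum_congr rfl hDτ, sum_const, nsmul_eq_mul,
        mul_one_div_cancel hcard.ne']
      norm_num
    have hxsupp : supp x ⊆ σ.erase v1 := by
      intro v hv
      rw [mem_supp] at hv
      refine mem_erase.2 ⟨?_, ?_⟩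
      · rintro rfl
        apply hv
        rw [hxτ v hv1, sub_self]
      · by_contra h1
        exact hv (hxo v h1)
    have hxnn : ∀ v, 0 ≤ x v := by
      intro v
      by_cases hvσ : v ∈ σ
      · rcases mem_insert.1 hvσ with rfl | hvτ
        · rw [hxv0]; exact add_nonneg (hz.nn _) ht0
        · rw [hxτ v hvτ]; linarith [hmin v hvτ]
      · rw [hxo v hvσ]
    have hxsum : ∑ v, x v = 1 := by
      simp only [hx, Pi.add_apply, Pi.smul_apply, smul_eq_mul]
      rw [sum_add_distrib, ← mul_sum, hDsum, hz.one]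
      ring
    have hv1v0 : v1 ≠ v0 := by rintro rfl; exact hv0 hv1
    have herase : σ.erase v1 ∈ K0 := by
      refine hmem _ (hK σ hσK _ (erase_subset _ _)) ?_ ?_
      · intro e
        have : v0 ∈ σ.erase v1 := mem_erase.2 ⟨hv1v0.symm, mem_insert_self _ _⟩
        rw [e] at this
        exact hv0 this
      · intro e
        have : v1 ∈ σ := mem_insert_of_mem hv1
        rw [← e] at this
        exact notMem_erase _ _ this
    have hxr : Rl K0 x := ⟨hxnn, hxsum, hK0 _ herase _ hxsupp⟩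
    obtain ⟨α, hα, hαx⟩ := h.surj x hxr
    refine ⟨α, ⟨hα.nn, hα.one, mem_filter.2 ⟨hα.sup, fun p hp => ?_⟩⟩, ?_⟩
    · have := hα.supp_sub h.vert hp
      rw [hαx] at this
      exact this.trans (hxsupp.trans (erase_subset _ _))
    · rw [hαx, hx, prj_add hD0]

/-- elementary expansion step for built subdivisions -/
theorem Sub.expand {K0 K : Finset (Finset V)} {τ : Finset V} {v0 : V}
    {L : Finset (Finset (V → ℝ))} (h : Sub K0 L) (hK0 : ∀ s ∈ K0, ∀ t, t ⊆ s → t ∈ K0)
    (hK : ∀ s ∈ K, ∀ t, t ⊆ s → t ∈ K)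
    (hτ : τ.Nonempty) (hv0 : v0 ∉ τ) (hτK : τ ∉ K0) (hσK : insert v0 τ ∈ K)
    (hsub : K0 ⊆ K) (hmem : ∀ s ∈ K, s ≠ τ → s ≠ insert v0 τ → s ∈ K0) :
    ∃ L', Sub K L' := by
  have hcard : 0 < (τ.card : ℝ) := by exact_mod_cast card_pos.2 hτ
  have hD0 : dir τ v0 v0 = -1 := by simp [dir]
  have hDτ : ∀ v ∈ τ, dir τ v0 v = 1 / (τ.card : ℝ) := by
    intro v hv
    have : v ≠ v0 := by rintro rfl; exact hv0 hv
    simp [dir, this, hv]
  have hDo : ∀ v, v ∉ insert v0 τ → dir τ v0 v = 0 := by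
    intro v hv
    rw [mem_insert, not_or] at hv
    simp [dir, hv.1, hv.2]
  have hDnn : ∀ v, v ≠ v0 → 0 ≤ dir τ v0 v := by
    intro v hv
    simp only [dir, hv, if_false]
    split_ifs <;> positivity
  have hDsum : ∑ v, dir τ v0 v = 0 := by
    have : ∑ v, dir τ v0 v = ∑ v ∈ insert v0 τ, dir τ v0 v := by
      symm
      refine sum_subset (subset_univ _) fun v _ hv => hDo v hv
    rw [this, sum_insert hv0, hD0, sum_congr rfl hDτ, sum_const, nsmul_eq_mul,
      mul_one_div_cancel hcard.ne']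
    norm_num
  obtain ⟨L', A', hI, hlow⟩ := Inv.final hσK hD0 hDnn hDo hDsum _ _ _
    (init h hK0 hK hτ hv0 hτK hσK hsub hmem) rfl
  refine ⟨L', hI.build, hI.vert, hI.car, hI.inj, ?_⟩
  intro x hx
  by_cases hxσ : supp x ⊆ insert v0 τ
  · obtain ⟨β, hβ, e⟩ := hI.proj x hx hxσ
    refine hI.cov x hx hxσ β hβ e ?_
    refine le_trans ?_ (hx.nn v0)
    rw [pos_apply]
    refine sum_nonpos fun p hp => ?_
    exact mul_nonpos_of_nonneg_of_nonpos (hβ.nn p) (hlow p (mem_vs.2 ⟨_, hβ.sup, hp⟩))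
  · refine hI.old x ⟨hx.nn, hx.one, hmem _ hx.sup ?_ ?_⟩
    · intro e
      exact hxσ (e ▸ subset_insert _ _)
    · intro e
      exact hxσ e.subset

end Pool.Agent.Helper54.CUR
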