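import Mathlib
import Pool.Agent.Helper54.CUR.PartB

/-!
Part C: geometric simplicial complexes from injective families, and the induction over collapses.
-/

namespace Pool.Agent.Helper54.CUR

open Finset

variable {V : Type*} [Fintype V] [DecidableEq V]

lemma mem_hull_of_pt {α : (V → ℝ) →₀ ℝ} (hnn : ∀ p, 0 ≤ α p) (hone : mass α = 1)
    {s : Finset (V → ℝ)} (hs : α.support ⊆ s) : pos α ∈ convexHull ℝ (s : Set (V → ℝ)) := by
  rw [Finset.mem_convexHull']
  refine ⟨α, fun y _ => hnn y, ?_, ?_⟩
  · rw [← hone, mass_eq]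
    symm
    refine sum_subset hs fun x _ hx => ?_
    rwa [Finsupp.notMem_support_iff] at hx
  · rw [pos_eq]
    symm
    refine sum_subset hs fun x _ hx => ?_
    rw [Finsupp.notMem_support_iff] at hx
    rw [hx, zero_smul]

lemma mem_hull {L : Finset (Finset (V → ℝ))} (hL : Cpx L) {s : Finset (V → ℝ)} (hs : s ∈ L)
    {x : V → ℝ} (hx : x ∈ convexHull ℝ (s : Set (V → ℝ))) :
    ∃ α, Pt L α ∧ α.support ⊆ s ∧ pos α = x := by
  classical
  rw [Finset.mem_convexHull'] at hx
  obtain ⟨w, h1, h2, h3⟩ := hx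
  set α : (V → ℝ) →₀ ℝ := Finsupp.onFinset s (fun y => if y ∈ s then w y else 0)
    (by intro y hy; by_contra h; simp [h] at hy) with hα
  have hsub : α.support ⊆ s := Finsupp.support_onFinset_subset
  have hval : ∀ y ∈ s, α y = w y := by
    intro y hy
    simp [hα, hy]
  refine ⟨α, ⟨?_, ?_, hL.2 s hs _ hsub⟩, hsub, ?_⟩
  · intro y
    by_cases hy : y ∈ s
    · rw [hval y hy]; exact h1 y hy
    · have : y ∉ α.support := fun h => hy (hsub h)
      rw [Finsupp.notMem_support_iff] at this
      rw [this]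
  · rw [mass_eq, ← h2, ← sum_congr rfl hval]
    refine sum_subset hsub fun x _ hx => ?_
    rwa [Finsupp.notMem_support_iff] at hx
  · rw [pos_eq, ← h3]
    rw [← sum_congr rfl (fun y hy => by rw [hval y hy] : ∀ y ∈ s, α y • y = w y • y)]
    refine sum_subset hsub fun x _ hx => ?_
    rw [Finsupp.notMem_support_iff] at hx
    rw [hx, zero_smul]

lemma indep_of_inj {L : Finset (Finset (V → ℝ))} (hL : Cpx L)
    (inj : ∀ α β, Pt L α → Pt L β → pos α = pos β → α = β) {s : Finset (V → ℝ)} (hs : s ∈ L) :
    AffineIndependent ℝ ((↑) : s → (V → ℝ)) := by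
  classical
  rw [affineIndependent_iff]
  intro t w hw0 hw1
  -- positive and negative parts
  set M : ℝ := ∑ e ∈ t, max (w e) 0 with hM
  have hM' : M = ∑ e ∈ t, max (-w e) 0 := by
    have hmm : ∀ e : s, max (w e) 0 - max (-w e) 0 = w e := by
      intro e
      rcases le_total (w e) 0 with h | h
      · rw [max_eq_right h, max_eq_left (by linarith)]; ring
      · rw [max_eq_left h, max_eq_right (by linarith)]; ring
    rw [hM, ← sub_eq_zero, ← sum_sub_distrib, sum_congr rfl (fun e _ => hmm e)]
    exact hw0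
  have hM0 : 0 ≤ M := sum_nonneg fun e _ => le_max_right _ _
  rcases hM0.eq_or_lt with hz | hpos
  · intro e he
    have h1 : max (w e) 0 = 0 :=
      (sum_eq_zero_iff_of_nonneg (fun e _ => le_max_right _ _)).1 hz.symm e he
    have h2 : max (-w e) 0 = 0 :=
      (sum_eq_zero_iff_of_nonneg (fun e _ => le_max_right _ _)).1 (hM'.symm.trans hz.symm) e he
    have h3 := le_max_left (w e) 0
    have h4 := le_max_left (-w e) 0
    linarith
  · have key : ∀ g : s → ℝ, (∀ e, 0 ≤ g e) → ∑ e ∈ t, g e = M →
        Pt L (M⁻¹ • ∑ e ∈ t, Finsupp.single (e : V → ℝ) (g e)) := by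
      intro g hg hgM
      refine ⟨?_, ?_, ?_⟩
      · intro p
        rw [Finsupp.smul_apply, Finsupp.finsetSum_apply]
        refine mul_nonneg (inv_nonneg.2 hM0) (sum_nonneg fun e _ => ?_)
        rw [Finsupp.single_apply]
        split_ifs
        · exact hg e
        · exact le_rfl
      · rw [map_smul, map_sum]
        simp only [mass, Finsupp.linearCombination_single, smul_eq_mul, mul_one]
        rw [hgM, inv_mul_cancel₀ hpos.ne']
      · refine hL.2 s hs _ ?_
        intro p hp
        rw [Finsupp.mem_support_iff, Finsupp.smul_apply, Finsupp.finsetSum_apply] at hp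
        by_contra hps
        apply hp
        rw [sum_eq_zero, smul_zero]
        intro e _
        rw [Finsupp.single_apply, if_neg]
        rintro rfl
        exact hps e.2
    have hval : ∀ g : s → ℝ, ∀ e ∈ t,
        (M⁻¹ • ∑ e ∈ t, Finsupp.single (e : V → ℝ) (g e)) (e : V → ℝ) = M⁻¹ * g e := by
      intro g e he
      rw [Finsupp.smul_apply, Finsupp.finsetSum_apply, smul_eq_mul]
      congr 1
      simp only [Finsupp.single_apply, Subtype.coe_inj]
      rw [sum_ite_eq' t e]
      simp [he]
    have hp : ∀ g : s → ℝ, pos (M⁻¹ • ∑ e ∈ t, Finsupp.single (e : V → ℝ) (g e)) =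
        M⁻¹ • ∑ e ∈ t, g e • (e : V → ℝ) := by
      intro g
      rw [map_smul, map_sum]
      simp only [pos, Finsupp.linearCombination_single, id]
    have e1 := inj _ _ (key (fun e => max (w e) 0) (fun e => le_max_right _ _) rfl)
      (key (fun e => max (-w e) 0) (fun e => le_max_right _ _) hM'.symm) (by
        rw [hp, hp]
        congr 1
        rw [← sub_eq_zero, ← sum_sub_distrib, ← hw1]
        refine sum_congr rfl fun e _ => ?_
        rw [← sub_smul]
        congr 1
        rcases le_total (w e) 0 with h | h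
        · rw [max_eq_right h, max_eq_left (by linarith)]; ring
        · rw [max_eq_left h, max_eq_right (by linarith)]; ring)
    intro e he
    have e2 := congrArg (fun f : (V → ℝ) →₀ ℝ => f (e : V → ℝ)) e1
    rw [hval _ e he, hval _ e he] at e2
    have e3 := mul_left_cancel₀ (inv_ne_zero hpos.ne') e2
    have h3 := le_max_left (w e) 0
    have h4 := le_max_left (-w e) 0
    rcases le_total (w e) 0 with h | h
    · rw [max_eq_right h] at e3
      linarith
    · have h5 : -w e ≤ 0 := by linarith
      rw [max_eq_right h5] at e3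
      linarith

/-- geometric complex from an injective family -/
noncomputable def geo (L : Finset (Finset (V → ℝ))) (hL : Cpx L)
    (inj : ∀ α β, Pt L α → Pt L β → pos α = pos β → α = β) :
    Geometry.SimplicialComplex ℝ (V → ℝ) :=
  Geometry.SimplicialComplex.ofErase (L : Set (Finset (V → ℝ)))
    (fun s hs => indep_of_inj hL inj (mem_coe.1 hs))
    (fun s t hts hs => mem_coe.2 (hL.2 s (mem_coe.1 hs) t hts))
    (by
      intro s hs t ht x hx
      obtain ⟨α, h1, h2, h3⟩ := mem_hull hL (mem_coe.1 hs) hx.1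
      obtain ⟨β, h4, h5, h6⟩ := mem_hull hL (mem_coe.1 ht) hx.2
      have : α = β := inj α β h1 h4 (h3.trans h6.symm)
      subst this
      classical
      rw [← h3, ← coe_inter]
      exact mem_hull_of_pt h1.nn h1.one (subset_inter h2 h5))

lemma geo_faces (L : Finset (Finset (V → ℝ))) (hL : Cpx L)
    (inj : ∀ α β, Pt L α → Pt L β → pos α = pos β → α = β) (s : Finset (V → ℝ)) :
    s ∈ (geo L hL inj).faces ↔ s ∈ L ∧ s.Nonempty := by
  rw [nonempty_iff_ne_empty]
  exact Iff.rfl

/-- unit vectors -/
noncomputable def ev (v : V) : V → ℝ := Pi.single v 1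

lemma ev_inj : Function.Injective (ev : V → V → ℝ) := by
  intro u v h
  by_contra hne
  have := congrFun h u
  simp [ev, hne] at this

lemma hull_ev (F : Finset V) (x : V → ℝ) :
    x ∈ convexHull ℝ ((F.image ev : Finset (V → ℝ)) : Set (V → ℝ)) ↔
      (∀ v, 0 ≤ x v) ∧ ∑ v, x v = 1 ∧ supp x ⊆ F := by
  constructor
  · intro hx
    have hconv : Convex ℝ {x : V → ℝ | (∀ v, 0 ≤ x v) ∧ ∑ v, x v = 1 ∧ supp x ⊆ F} := by
      rintro x ⟨h1, h2, h3⟩ y ⟨h4, h5, h6⟩ p q hp hq hpq
      refine ⟨fun v => ?_, ?_, ?_⟩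
      · simp only [Pi.add_apply, Pi.smul_apply, smul_eq_mul]
        exact add_nonneg (mul_nonneg hp (h1 v)) (mul_nonneg hq (h4 v))
      · simp only [Pi.add_apply, Pi.smul_apply, smul_eq_mul]
        rw [sum_add_distrib, ← mul_sum, ← mul_sum, h2, h5]
        linarith
      · intro v hv
        rw [mem_supp] at hv
        by_contra hvF
        apply hv
        have e1 : x v = 0 := by
          by_contra h; exact hvF (h3 (mem_supp.2 h))
        have e2 : y v = 0 := by
          by_contra h; exact hvF (h6 (mem_supp.2 h))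
        simp [e1, e2]
    refine convexHull_min ?_ hconv hx
    intro p hp
    obtain ⟨v, hv, rfl⟩ := mem_image.1 (mem_coe.1 hp)
    refine ⟨fun u => ?_, ?_, ?_⟩
    · simp only [ev, Pi.single_apply]
      split_ifs <;> norm_num
    · simp [ev, Pi.single_apply]
    · intro u hu
      rw [mem_supp] at hu
      simp only [ev, Pi.single_apply, ne_eq, ite_eq_right_iff, one_ne_zero, imp_false,
        not_not] at hu
      exact hu ▸ hv
  · rintro ⟨h1, h2, h3⟩
    have hsum : ∑ v ∈ F, x v = 1 := by
      rw [← h2]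
      refine sum_subset (subset_univ _) fun v _ hv => ?_
      by_contra h
      exact hv (h3 (mem_supp.2 h))
    have hx : x = ∑ v ∈ F, x v • ev v := by
      ext u
      rw [Finset.sum_apply]
      simp only [Pi.smul_apply, ev, Pi.single_apply, smul_eq_mul, mul_ite, mul_one, mul_zero]
      rw [sum_ite_eq]
      split_ifs with hu
      · rfl
      · by_contra h
        exact hu (h3 (mem_supp.2 h))
    rw [hx]
    refine (convex_convexHull ℝ _).sum_mem (fun v _ => h1 v) hsum fun v hv => ?_
    exact subset_convexHull ℝ _ (mem_coe.2 (mem_image_of_mem _ hv))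

lemma inj_ev (K : Finset (Finset V)) :
    ∀ α β, Pt (K.image (fun F => F.image ev)) α → Pt (K.image (fun F => F.image ev)) β →
      pos α = pos β → α = β := by
  have key : ∀ α, Pt (K.image (fun F => F.image (ev : V → V → ℝ))) α →
      (∀ v, α (ev v) = pos α v) ∧ ∀ p, (∀ v, p ≠ ev v) → α p = 0 := by
    intro α hα
    obtain ⟨F, hF, hs⟩ := mem_image.1 hα.sup
    have hsup : ∀ p ∈ α.support, ∃ v ∈ F, ev v = p := by
      intro p hp
      rw [← hs] at hp
      simpa using hp
    constructor
    · intro v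
      rw [pos_apply]
      have : ∀ p ∈ α.support, α p * p v = if p = ev v then α p else 0 := by
        intro p hp
        obtain ⟨u, -, rfl⟩ := hsup p hp
        by_cases huv : u = v
        · subst huv; simp [ev]
        · rw [if_neg (fun h => huv (ev_inj h))]
          simp [ev, Ne.symm huv]
      rw [sum_congr rfl this, sum_ite_eq']
      split_ifs with h
      · rfl
      · exact Finsupp.notMem_support_iff.1 h
    · intro p hp
      rw [← Finsupp.notMem_support_iff]
      intro h
      obtain ⟨v, -, hv⟩ := hsup p h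
      exact hp v hv.symm
  intro α β hα hβ e
  ext p
  by_cases h : ∃ v, p = ev v
  · obtain ⟨v, rfl⟩ := h
    rw [(key α hα).1, (key β hβ).1, e]
  · push Not at h
    rw [(key α hα).2 p h, (key β hβ).2 p h]

lemma cpx_ev {K : Finset (Finset V)} (hK : Cpx K) : Cpx (K.image (fun F => F.image (ev : V → V → ℝ))) := by
  refine ⟨mem_image.2 ⟨∅, hK.1, by simp⟩, ?_⟩
  intro s hs t ht
  obtain ⟨F, hF, rfl⟩ := mem_image.1 hs
  refine mem_image.2 ⟨F.filter (fun v => ev v ∈ t), hK.2 F hF _ (filter_subset _ _), ?_⟩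
  ext p
  simp only [mem_image, mem_filter]
  constructor
  · rintro ⟨v, ⟨-, h⟩, rfl⟩; exact h
  · intro hp
    obtain ⟨v, hv, rfl⟩ := mem_image.1 (ht hp)
    exact ⟨v, ⟨hv, hp⟩, rfl⟩

lemma supp_nonempty {x : V → ℝ} (h : ∑ v, x v = 1) : (supp x).Nonempty := by
  by_contra hcon
  rw [not_nonempty_iff_eq_empty] at hcon
  have : ∑ v, x v = 0 := by
    refine sum_eq_zero fun v _ => ?_
    by_contra hv
    have := mem_supp.2 hv
    rw [hcon] at this
    exact notMem_empty _ this
  rw [this] at h
  exact zero_ne_one h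

/-- geometric form of a subdivision -/
theorem Sub.geom {K : Finset (Finset V)} {L : Finset (Finset (V → ℝ))} (hK : Cpx K)
    (h : Sub K L) :
    ∃ P Q : Geometry.SimplicialComplex ℝ (V → ℝ),
      (∀ s, s ∈ P.faces ↔ ∃ F ∈ K, F.Nonempty ∧ s = F.image ev) ∧
      (∀ s, s ∈ Q.faces ↔ s ∈ L ∧ s.Nonempty) ∧
      (∀ t ∈ Q.faces, ∃ s ∈ P.faces,
        convexHull ℝ (t : Set (V → ℝ)) ⊆ convexHull ℝ (s : Set (V → ℝ))) ∧
      (∀ s ∈ P.faces, ∃ T ⊆ Q.faces,
        convexHull ℝ (s : Set (V → ℝ)) = ⋃ t ∈ T, convexHull ℝ (t : Set (V → ℝ))) := by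
  have hsubhull : ∀ t ∈ L, ∀ F : Finset V, (∀ p ∈ t, supp p ⊆ F) →
      convexHull ℝ (t : Set (V → ℝ)) ⊆
        convexHull ℝ ((F.image ev : Finset (V → ℝ)) : Set (V → ℝ)) := by
    intro t ht F hF
    refine convexHull_min ?_ (convex_convexHull ℝ _)
    intro p hp
    obtain ⟨h1, h2⟩ := h.vert t ht p (mem_coe.1 hp)
    exact (hull_ev F p).2 ⟨h1, h2, hF p (mem_coe.1 hp)⟩
  have hP : ∀ s, s ∈ (geo _ (cpx_ev hK) (inj_ev K)).faces ↔
      ∃ F ∈ K, F.Nonempty ∧ s = F.image ev := by
    intro s
    rw [geo_faces, mem_image]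
    constructor
    · rintro ⟨⟨F, hF, rfl⟩, hne⟩
      exact ⟨F, hF, by simpa using hne, rfl⟩
    · rintro ⟨F, hF, hne, rfl⟩
      exact ⟨⟨F, hF, rfl⟩, hne.image _⟩
  refine ⟨geo _ (cpx_ev hK) (inj_ev K), geo L h.build.cpx h.inj, hP,
    geo_faces _ _ _, ?_, ?_⟩
  · intro t ht
    rw [geo_faces] at ht
    obtain ⟨ht, p, hp⟩ := ht
    obtain ⟨F, hF, hFs⟩ := h.car t ht
    refine ⟨F.image ev, (hP _).2 ⟨F, hF, ?_, rfl⟩, hsubhull t ht F hFs⟩
    exact (supp_nonempty (h.vert t ht p hp).2).mono (hFs p hp)
  · intro s hs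
    obtain ⟨F, hF, hne, rfl⟩ := (hP s).1 hs
    refine ⟨{t | t ∈ (geo L h.build.cpx h.inj).faces ∧ convexHull ℝ (t : Set (V → ℝ)) ⊆
      convexHull ℝ ((F.image ev : Finset (V → ℝ)) : Set (V → ℝ))}, fun t ht => ht.1, ?_⟩
    ext x
    simp only [Set.mem_iUnion, Set.mem_ofPred_eq, exists_prop]
    constructor
    · intro hx
      obtain ⟨h1, h2, h3⟩ := (hull_ev F x).1 hx
      obtain ⟨α, hα, rfl⟩ := h.surj x ⟨h1, h2, hK.2 F hF _ h3⟩
      refine ⟨α.support, ⟨(geo_faces _ _ _ _).2 ⟨hα.sup, ?_⟩, ?_⟩,
        mem_hull_of_pt hα.nn hα.one subset_rfl⟩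
      · by_contra hcon
        rw [not_nonempty_iff_eq_empty] at hcon
        have := hα.one
        rw [mass_eq, hcon, sum_empty] at this
        exact zero_ne_one this
      · exact hsubhull _ hα.sup F fun p hp => (hα.supp_sub h.vert hp).trans h3
    · rintro ⟨t, ⟨-, h2⟩, hx⟩
      exact h2 hx

lemma sub_point (v : V) : Sub ({∅, {v}} : Finset (Finset V)) {∅, {ev v}} := by
  have hval : ∀ α, Pt ({∅, {ev v}} : Finset (Finset (V → ℝ))) α → α = Finsupp.single (ev v) 1 := by
    intro α hα
    have hs : α.support ⊆ {ev v} := by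
      have := hα.sup
      simp only [mem_insert, mem_singleton] at this
      rcases this with h | h
      · rw [h]; exact empty_subset _
      · rw [h]
    have h1 := Finsupp.support_subset_singleton.1 hs
    rw [h1]
    have h2 := hα.one
    rw [h1] at h2
    simp only [mass, Finsupp.linearCombination_single, smul_eq_mul, mul_one] at h2
    rw [h2]
  refine ⟨Build.point _, ?_, ?_, ?_, ?_⟩
  · intro s hs p hp
    simp only [mem_insert, mem_singleton] at hs
    rcases hs with rfl | rfl
    · exact absurd hp (notMem_empty _)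
    · rw [mem_singleton] at hp
      subst hp
      refine ⟨fun u => ?_, ?_⟩
      · simp only [ev, Pi.single_apply]
        split_ifs <;> norm_num
      · simp [ev, Pi.single_apply]
  · intro s hs
    refine ⟨{v}, by simp, ?_⟩
    intro p hp
    simp only [mem_insert, mem_singleton] at hs
    rcases hs with rfl | rfl
    · exact absurd hp (notMem_empty _)
    · rw [mem_singleton] at hp
      subst hp
      intro u hu
      rw [mem_supp] at hu
      simpa [ev, Pi.single_apply] using hu
  · intro α β hα hβ _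
    rw [hval α hα, hval β hβ]
  · intro x hx
    have hs : supp x ⊆ {v} := by
      have := hx.sup
      simp only [mem_insert, mem_singleton] at this
      rcases this with h | h
      · rw [h]; exact empty_subset _
      · rw [h]
    have hx0 : ∀ u, u ≠ v → x u = 0 := by
      intro u hu
      by_contra h
      exact hu (mem_singleton.1 (hs (mem_supp.2 h)))
    have hx1 : x v = 1 := by
      rw [← hx.one]
      symm
      exact sum_eq_single v (fun u _ hu => hx0 u hu) (fun h => absurd (mem_univ _) h)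
    refine ⟨Finsupp.single (ev v) 1, ⟨?_, ?_, ?_⟩, ?_⟩
    · intro p
      rw [Finsupp.single_apply]; split_ifs <;> norm_num
    · simp [mass, Finsupp.linearCombination_single]
    · have : (Finsupp.single (ev v) (1 : ℝ)).support = {ev v} := by
        simp [Finsupp.support_single]
      rw [this]; simp
    · simp only [pos, Finsupp.linearCombination_single, id, one_smul]
      ext u
      by_cases hu : u = v
      · subst hu; simp [ev, hx1]
      · simp [ev, hu, hx0 u hu]

end Pool.Agent.Helper54.CUR
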